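import Pool.Agent.Run7.h367.SP.Dec

/-!
# Schemes in strong products

The strong product `G ⊠ H` has the vertex set `V(G) × V(H)`; distinct vertices `(a, b)`, `(a', b')` are
adjacent if and only if (`a = a'` or `a a'` is an edge of `G`) and (`b = b'` or `b b'` is an edge of `H`).
Its chromatic number is at least `2 χ(G)` if `H` has an edge, and equal to `2 χ(G)` if `H` is bipartite.
We call `H` `N`-wide if it contains a path with `N` vertices, or a set `Q` that induces a connected
subgraph and has at least `N` neighbours outside of `Q`; every connected graph with at least `N²` vertices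
is `N`-wide.

**Theorem.**
1. Let `c ≥ χ(G)`.  Q1 holds for `G ⊠ H` if `H` is bipartite and `2c`-wide (so, if `H` is connected,
bipartite and has at least `4 c²` vertices), or if `H` is not bipartite and has a homomorphism to the cycle
`C_{2c+1}`.  In particular, it holds for `G ⊠ P_n`, `G ⊠ C_n` for all graphs `G` and all `n ≥ 2 χ(G)`.
2. Let `χ(G) > k`.  If `H` is `(2k+2)`-wide, then every graph that contains `G ⊠ H` has a `(2k+2)`-scheme.  If `H`
is connected and has a minor `K_{h+2}` and at least `(h + 2) (2k + 1) (2k + h + 3)` vertices, then every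
graph that contains `G ⊠ H` has a `(2k+2+h)`-scheme.

The graphs need not be finite.

Proof.  A minor `K_m` gives an `m`-scheme; for the clique minors of strong products see
StrongProducts of MP_b47bfb_co.
-/

set_option autoImplicit false

namespace Pool.Agent.Results.MP_950ff6_co.StrongProducts

/-- `K_m` is a minor of `G`: there are `m` pairwise disjoint vertex sets, each inducing a connected
subgraph, with an edge of `G` between any two of them. -/
def HasCliqueMinor {V : Type} (G : SimpleGraph V) (m : ℕ) : Prop :=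
  ∃ B : Fin m → Set V,
    (∀ i, (G.induce (B i)).Connected) ∧
    (∀ i j, i ≠ j → Disjoint (B i) (B j)) ∧
    (∀ i j, i ≠ j → ∃ u ∈ B i, ∃ w ∈ B j, G.Adj u w)

/-- `G` contains a `k`-scheme: different vertices `x i` and paths `P i j` between them, disjoint for
four different indices. -/
def HasScheme {V : Type} (G : SimpleGraph V) (k : ℕ) : Prop :=
  ∃ (x : Fin k → V) (P : ∀ i j : Fin k, G.Walk (x i) (x j)), Function.Injective x ∧
    (∀ i j, (P i j).IsPath) ∧
    ∀ i j h l, i ≠ j → h ≠ l → i ≠ h → i ≠ l → j ≠ h → j ≠ l →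
      ∀ u, u ∈ (P i j).support → u ∉ (P h l).support

/-- The strong product of `G` and `H`. -/
def strongProduct {V W : Type} (G : SimpleGraph V) (H : SimpleGraph W) :
    SimpleGraph (V × W) where
  Adj x y := x ≠ y ∧ (x.1 = y.1 ∨ G.Adj x.1 y.1) ∧ (x.2 = y.2 ∨ H.Adj x.2 y.2)
  symm := ⟨fun _ _ h => ⟨h.1.symm, h.2.1.imp Eq.symm SimpleGraph.Adj.symm,
    h.2.2.imp Eq.symm SimpleGraph.Adj.symm⟩⟩
  loopless := ⟨fun _ h => h.1 rfl⟩

/-- `F` contains `G` as a subgraph, not necessarily an induced one. -/
def Contains {U V : Type} (F : SimpleGraph U) (G : SimpleGraph V) : Prop :=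
  ∃ f : V → U, Function.Injective f ∧ ∀ x y, G.Adj x y → F.Adj (f x) (f y)

/-- `W` has at least `N` elements. -/
def AtLeast (W : Type) (N : ℕ) : Prop := ∃ f : Fin N → W, Function.Injective f

/-- `H` contains a path with `N` vertices, or a set `Q` that induces a connected subgraph and
`N` different vertices that do not belong to `Q` and are adjacent to vertices of `Q`. -/
def Wide {W : Type} (H : SimpleGraph W) (N : ℕ) : Prop :=
  (∃ p : Fin N → W, Function.Injective p ∧ ∀ i j : Fin N, i.1 + 1 = j.1 → H.Adj (p i) (p j)) ∨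
  ∃ (Q : Set W) (ν : Fin N → W), (H.induce Q).Connected ∧ Function.Injective ν ∧
    ∀ i, ν i ∉ Q ∧ ∃ q ∈ Q, H.Adj q (ν i)

theorem result :
    (∀ (c k : ℕ) (V W : Type) (G : SimpleGraph V) (H : SimpleGraph W),
      G.Colorable c →
      (H.Colorable 2 ∧ Wide H (2 * c)) ∨
        (¬ H.Colorable 2 ∧ Nonempty (H →g SimpleGraph.cycleGraph (2 * c + 1))) →
      ¬ (strongProduct G H).Colorable k → HasScheme (strongProduct G H) (k + 1)) ∧
    (∀ (k : ℕ) (V W : Type) (G : SimpleGraph V) (H : SimpleGraph W),
      ¬ G.Colorable k → Wide H (2 * k + 2) →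
      ∀ (U : Type) (F : SimpleGraph U), Contains F (strongProduct G H) →
        HasScheme F (2 * k + 2)) ∧
    (∀ (N : ℕ) (W : Type) (H : SimpleGraph W), H.Connected → AtLeast W (N * N) → Wide H N) ∧
    (∀ (k h : ℕ) (V W : Type) (G : SimpleGraph V) (H : SimpleGraph W),
      ¬ G.Colorable k → H.Connected → HasCliqueMinor H (h + 2) →
      AtLeast W ((h + 2) * ((2 * k + 1) * (2 * k + h + 3))) →
      ∀ (U : Type) (F : SimpleGraph U), Contains F (strongProduct G H) →
        HasScheme F (2 * k + 2 + h)) := by
  refine ⟨?_, ?_, ?_, ?_⟩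
  · intro c k V W G H hG hH hk
    exact Pool.Agent.Run7.h367.SP.scheme_of_minor (Pool.Agent.Run7.h367.SP.hadwiger hG hH hk)
  · rintro k V W G H hG hH U F ⟨f, f1, f2⟩
    exact Pool.Agent.Run7.h367.SP.scheme_of_minor (Pool.Agent.Run7.h367.DP.CM.of_hom f f1 f2
      (Pool.Agent.Run7.h367.SP.wide_minor hG hH))
  · intro N W H hH hf
    exact Pool.Agent.Run7.h367.SP.wide_of_large hH hf
  · rintro k h V W G H hG hH hR hf U F ⟨f, f1, f2⟩
    exact Pool.Agent.Run7.h367.SP.scheme_of_minor (Pool.Agent.Run7.h367.DP.CM.of_hom f f1 f2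
      (Pool.Agent.Run7.h367.SP.main_gen hG hH hf hR))

end Pool.Agent.Results.MP_950ff6_co.StrongProducts
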